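import Mathlib

open Nat.Partrec (Code)
open Nat.Partrec.Code
open Filter

namespace Pool.Agent.Results.MP_1b3940_lc.NegOneAll

/-- `φ` is an acceptable numbering of the unary partial computable functions:
the universal function is partial computable, and every computable numbering of partial
computable functions translates computably into `φ`. -/
structure Acceptable (φ : ℕ → ℕ →. ℕ) : Prop where
  partrec : Partrec₂ φ
  translate : ∀ ψ : ℕ → ℕ →. ℕ, Partrec₂ ψ →
    ∃ f : ℕ → ℕ, Computable f ∧ ∀ e, φ (f e) = ψ e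

/-- `W_e`, the domain of the `e`-th partial computable function. -/
def W (φ : ℕ → ℕ →. ℕ) (e : ℕ) : Set ℕ := {x | (φ e x).Dom}

/-- The class of all r.e. subsets of `ℕ`. -/
def AllRE : Set (Set ℕ) := {L | REPred (fun x => x ∈ L)}

/-- `I` is an information sequence: `some (x, true)` says that `x` is in the language,
`some (x, false)` says that it is not, `none` is the pause symbol. -/
def IsInfoSeq (I : ℕ → Option (ℕ × Bool)) : Prop :=
  ∀ x, ¬ (some (x, false) ∈ Set.range I ∧ some (x, true) ∈ Set.range I)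

/-- The positive information of `I`. -/
def PosInfo (I : ℕ → Option (ℕ × Bool)) : Set ℕ := {x | some (x, true) ∈ Set.range I}

/-- The negative information of `I`. -/
def NegInfo (I : ℕ → Option (ℕ × Bool)) : Set ℕ := {x | some (x, false) ∈ Set.range I}

/-- The initial segment `I[n]` of length `n`. -/
def initSeg (I : ℕ → Option (ℕ × Bool)) (n : ℕ) : List (Option (ℕ × Bool)) :=
  (List.range n).map I

/-- `|S| ≤ b`, where the value `⊤` of the bound stands for `*`, i.e. for finiteness. -/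
def CardLE (S : Set ℕ) (b : ℕ∞) : Prop := S.Finite ∧ S.encard ≤ b

/-- `A =^a B`. -/
def EqUpTo (a : ℕ∞) (A B : Set ℕ) : Prop := CardLE (symmDiff A B) a

/-- The learner `M` `NegO^b TxtBc^a`-identifies the language `L`. -/
def Identifies (φ : ℕ → ℕ →. ℕ) (b a : ℕ∞) (M : List (Option (ℕ × Bool)) → ℕ)
    (L : Set ℕ) : Prop :=
  ∃ S : Set ℕ, S ⊆ Lᶜ ∧ CardLE S b ∧
    ∀ I : ℕ → Option (ℕ × Bool), IsInfoSeq I → PosInfo I = L →
      S ⊆ NegInfo I → NegInfo I ⊆ Lᶜ →
        ∀ᶠ n in atTop, EqUpTo a (W φ (M (initSeg I n))) L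

/-- The criterion `NegO^b TxtBc^a`, as a collection of classes of r.e. languages. -/
def NegOTxtBc (φ : ℕ → ℕ →. ℕ) (b a : ℕ∞) : Set (Set (Set ℕ)) :=
  {C | C ⊆ AllRE ∧ ∃ M : List (Option (ℕ × Bool)) → ℕ, Computable M ∧
    ∀ L ∈ C, Identifies φ b a M L}

/-! ### Combinatorics of the tell-tales -/

/-- `j` looks like a correct index on the data `σ`, judged with the predicate `U`. -/
def Good (U : ℕ → ℕ → Prop) (σ : List (Option (ℕ × Bool))) (j : ℕ) : Prop :=
  (∀ o ∈ σ, ∀ x b, o = some (x, b) → (U j x ↔ b = true)) ∧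
  (∀ k < j, ∀ y < σ.length, U j y → ¬ U k y → (∀ z < y, U j z → U k z) →
    some (y, true) ∈ σ)

lemma good_congr {U U' : ℕ → ℕ → Prop} {σ : List (Option (ℕ × Bool))} {j B : ℕ}
    (h : ∀ k ≤ j, ∀ x ≤ B, (U k x ↔ U' k x))
    (hσ : ∀ x b, some (x, b) ∈ σ → x ≤ B) (hl : σ.length ≤ B) :
    Good U σ j ↔ Good U' σ j := by
  unfold Good
  refine and_congr ?_ ?_
  · constructor
    · intro H o ho x b hob
      rw [← h j le_rfl x (hσ x b (hob ▸ ho))]
      exact H o ho x b hob
    · intro H o ho x b hob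
      rw [h j le_rfl x (hσ x b (hob ▸ ho))]
      exact H o ho x b hob
  · constructor
    · intro H k hk y hy h1 h2 h3
      have hyB : y ≤ B := by omega
      refine H k hk y hy ((h j le_rfl y hyB).2 h1) (fun hh => h2 ((h k hk.le y hyB).1 hh)) ?_
      intro z hz hz1
      have hzB : z ≤ B := by omega
      exact (h k hk.le z hzB).2 (h3 z hz ((h j le_rfl z hzB).1 hz1))
    · intro H k hk y hy h1 h2 h3
      have hyB : y ≤ B := by omega
      refine H k hk y hy ((h j le_rfl y hyB).1 h1) (fun hh => h2 ((h k hk.le y hyB).2 hh)) ?_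
      intro z hz hz1
      have hzB : z ≤ B := by omega
      exact (h k hk.le z hzB).1 (h3 z hz ((h j le_rfl z hzB).2 hz1))

lemma mem_initSeg {I : ℕ → Option (ℕ × Bool)} {n : ℕ} {o : Option (ℕ × Bool)} :
    o ∈ initSeg I n ↔ ∃ m < n, I m = o := by
  simp [initSeg]

lemma length_initSeg (I : ℕ → Option (ℕ × Bool)) (n : ℕ) : (initSeg I n).length = n := by
  simp [initSeg]

lemma ev_mem_initSeg {I : ℕ → Option (ℕ × Bool)} {o : Option (ℕ × Bool)}
    (h : o ∈ Set.range I) : ∀ᶠ n in atTop, o ∈ initSeg I n := by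
  obtain ⟨m, hm⟩ := h
  filter_upwards [eventually_gt_atTop m] with n hn
  exact mem_initSeg.2 ⟨m, hn, hm⟩

/-- The choice of the negative datum: it refutes every index below `i` of a proper superset of
`L` that the tell-tale condition does not refute. -/
lemma exists_negative (V : ℕ → Set ℕ) (L : Set ℕ) (i : ℕ) (hi : ∀ j < i, V j ≠ L) :
    ∃ S : Set ℕ, S ⊆ Lᶜ ∧ CardLE S 1 ∧
      ∀ j < i, L ⊆ V j →
        (∀ k < j, ∀ y ∈ V j, y ∉ V k → (∀ z < y, z ∈ V j → z ∈ V k) → y ∈ L) →
        ∃ x ∈ S, x ∈ V j := by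
  classical
  let P : ℕ → Prop := fun j => j < i ∧ L ⊆ V j ∧
    (∀ k < j, ∀ y ∈ V j, y ∉ V k → (∀ z < y, z ∈ V j → z ∈ V k) → y ∈ L)
  by_cases hP : ∃ j, P j
  · obtain ⟨j0, hj0⟩ := hP
    let j := Nat.findGreatest P i
    have hj : P j := Nat.findGreatest_spec (P := P) hj0.1.le hj0
    have hmax : ∀ k, P k → k ≤ j := fun k hk => Nat.le_findGreatest hk.1.le hk
    have hne : ∃ x ∈ V j, x ∉ L := by
      by_contra hcon
      push Not at hcon
      exact hi j hj.1 (Set.Subset.antisymm hcon hj.2.1)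
    obtain ⟨x, hxj, hxL⟩ := hne
    refine ⟨{x}, by simpa using hxL, ⟨Set.finite_singleton x, by simp⟩, ?_⟩
    intro k hk hLk htk
    refine ⟨x, rfl, ?_⟩
    have hkj : k ≤ j := hmax k ⟨hk, hLk, htk⟩
    rcases hkj.eq_or_lt with rfl | hlt
    · exact hxj
    · by_contra hxk
      have hex : ∃ y, y ∈ V j ∧ y ∉ V k := ⟨x, hxj, hxk⟩
      have hy := Nat.find_spec hex
      have hmin : ∀ z < Nat.find hex, z ∈ V j → z ∈ V k := by
        intro z hz hzj
        by_contra hzk
        exact Nat.find_min hex hz ⟨hzj, hzk⟩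
      exact hy.2 (hLk (hj.2.2 k hlt _ hy.1 hy.2 hmin))
  · refine ⟨∅, Set.empty_subset _, ⟨Set.finite_empty, by simp⟩, ?_⟩
    intro j hj hL ht
    exact absurd ⟨j, hj, hL, ht⟩ hP

/-- On data for `L` with the chosen negative datum, the least index of `L` is eventually the
least index that looks correct. -/
lemma ev_good (V : ℕ → Set ℕ) (L : Set ℕ) (i : ℕ) (hiL : V i = L) (S : Set ℕ)
    (hS : ∀ j < i, L ⊆ V j →
        (∀ k < j, ∀ y ∈ V j, y ∉ V k → (∀ z < y, z ∈ V j → z ∈ V k) → y ∈ L) →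
        ∃ x ∈ S, x ∈ V j)
    (I : ℕ → Option (ℕ × Bool)) (hpos : PosInfo I = L) (hSI : S ⊆ NegInfo I)
    (hneg : NegInfo I ⊆ Lᶜ) :
    ∀ᶠ n in atTop, Good (fun j x => x ∈ V j) (initSeg I n) i ∧
      ∀ j < i, ¬ Good (fun j x => x ∈ V j) (initSeg I n) j := by
  have h1 : ∀ᶠ n in atTop, Good (fun j x => x ∈ V j) (initSeg I n) i := by
    have hk : ∀ k < i, ∀ᶠ n in atTop, ∀ y < (initSeg I n).length, y ∈ V i → ¬ y ∈ V k →
        (∀ z < y, z ∈ V i → z ∈ V k) → some (y, true) ∈ initSeg I n := by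
      intro k _
      by_cases hex : ∃ y, y ∈ V i ∧ y ∉ V k
      · classical
        have hy := Nat.find_spec hex
        have hyr : some (Nat.find hex, true) ∈ Set.range I := by
          have : Nat.find hex ∈ PosInfo I := by rw [hpos, ← hiL]; exact hy.1
          exact this
        filter_upwards [ev_mem_initSeg hyr] with n hn y _ hy1 hy2 hy3
        have : y = Nat.find hex := by
          rcases lt_trichotomy y (Nat.find hex) with hlt | heq | hgt
          · exact absurd ⟨hy1, hy2⟩ (Nat.find_min hex hlt)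
          · exact heq
          · exact absurd (hy3 _ hgt hy.1) hy.2
        rw [this]; exact hn
      · push Not at hex
        exact Eventually.of_forall fun n y _ hy1 hy2 _ => absurd (hex y hy1) hy2
    have hk' := (eventually_all_finite (Set.finite_lt_nat i)).2 hk
    filter_upwards [hk'] with n hn
    refine ⟨?_, hn⟩
    rintro o ho x b rfl
    obtain ⟨m, _, hm⟩ := mem_initSeg.1 ho
    cases b with
    | true =>
      have : x ∈ PosInfo I := ⟨m, hm⟩
      rw [hpos, ← hiL] at this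
      simpa using this
    | false =>
      have : x ∈ NegInfo I := ⟨m, hm⟩
      have := hneg this
      rw [← hiL] at this
      simpa using this
  have h2 : ∀ j < i, ∀ᶠ n in atTop, ¬ Good (fun j x => x ∈ V j) (initSeg I n) j := by
    intro j hj
    by_cases hLj : L ⊆ V j
    · by_cases ht : (∀ k < j, ∀ y ∈ V j, y ∉ V k → (∀ z < y, z ∈ V j → z ∈ V k) → y ∈ L)
      · obtain ⟨x, hxS, hxj⟩ := hS j hj hLj ht
        have hxr : some (x, false) ∈ Set.range I := hSI hxS
        filter_upwards [ev_mem_initSeg hxr] with n hn hG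
        have := (hG.1 _ hn x false rfl).1 hxj
        simp at this
      · push Not at ht
        obtain ⟨k, hk, y, hyj, hyk, hz, hyL⟩ := ht
        filter_upwards [eventually_gt_atTop y] with n hn hG
        have hmem := hG.2 k hk y (by rw [length_initSeg]; exact hn) hyj hyk hz
        obtain ⟨m, _, hm⟩ := mem_initSeg.1 hmem
        have : y ∈ PosInfo I := ⟨m, hm⟩
        rw [hpos] at this
        exact hyL this
    · rw [Set.not_subset] at hLj
      obtain ⟨x, hxL, hxj⟩ := hLj
      have hxr : some (x, true) ∈ Set.range I := by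
        have : x ∈ PosInfo I := by rw [hpos]; exact hxL
        exact this
      filter_upwards [ev_mem_initSeg hxr] with n hn hG
      exact hxj ((hG.1 _ hn x true rfl).2 rfl)
  filter_upwards [h1, (eventually_all_finite (Set.finite_lt_nat i)).2 h2] with n hn1 hn2
  exact ⟨hn1, hn2⟩

/-! ### Approximations -/

/-- stage `s` approximation of the numbering with universal code `c`. -/
def w (c : Code) (s j x : ℕ) : Prop := (evaln s c (Nat.pair j x)).isSome = true

lemma w_mono {c : Code} {s t j x : ℕ} (h : s ≤ t) (hw : w c s j x) : w c t j x := by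
  unfold w at *
  rw [Option.isSome_iff_exists] at *
  obtain ⟨a, ha⟩ := hw
  exact ⟨a, evaln_mono h ha⟩

lemma w_bound {c : Code} {s j x : ℕ} (hw : w c s j x) : x < s := by
  unfold w at *
  rw [Option.isSome_iff_exists] at *
  obtain ⟨a, ha⟩ := hw
  exact lt_of_le_of_lt (Nat.right_le_pair j x) (evaln_bound ha)

lemma w_iff {c : Code} {φ : ℕ → ℕ →. ℕ} (hc : ∀ j x, c.eval (Nat.pair j x) = φ j x)
    (j x : ℕ) : x ∈ W φ j ↔ ∃ s, w c s j x := by
  unfold W w
  simp only [Set.mem_ofPred_eq, ← hc, Part.dom_iff_mem, evaln_complete,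
    Option.isSome_iff_exists]
  constructor
  · rintro ⟨y, k, hk⟩; exact ⟨k, y, hk⟩
  · rintro ⟨k, y, hk⟩; exact ⟨y, k, hk⟩

lemma ev_w {c : Code} {φ : ℕ → ℕ →. ℕ} (hc : ∀ j x, c.eval (Nat.pair j x) = φ j x)
    (j x : ℕ) : ∀ᶠ s in atTop, (w c s j x ↔ x ∈ W φ j) := by
  by_cases h : x ∈ W φ j
  · obtain ⟨s, hs⟩ := (w_iff hc j x).1 h
    filter_upwards [eventually_ge_atTop s] with t ht
    exact ⟨fun _ => h, fun _ => w_mono ht hs⟩
  · exact Eventually.of_forall fun s => ⟨fun hs => (w_iff hc j x).2 ⟨s, hs⟩, fun hh => absurd hh h⟩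

lemma ev_good_congr {c : Code} {φ : ℕ → ℕ →. ℕ}
    (hc : ∀ j x, c.eval (Nat.pair j x) = φ j x) (σ : List (Option (ℕ × Bool))) (n : ℕ) :
    ∀ᶠ s in atTop, ∀ j ≤ n, (Good (w c s) σ j ↔ Good (fun j x => x ∈ W φ j) σ j) := by
  obtain ⟨B, hB1, hB2⟩ : ∃ B, (∀ x b, some (x, b) ∈ σ → x ≤ B) ∧ σ.length ≤ B := by
    refine ⟨σ.length + (σ.map (fun o => (o.map Prod.fst).getD 0)).sum, ?_, by omega⟩
    intro x b hx
    have : x ∈ σ.map (fun o => (o.map Prod.fst).getD 0) := by
      rw [List.mem_map]; exact ⟨_, hx, rfl⟩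
    have := List.le_sum_of_mem this
    omega
  have h1 : ∀ᶠ s in atTop, ∀ k ∈ Set.Iic n, ∀ x ∈ Set.Iic B, (w c s k x ↔ x ∈ W φ k) := by
    rw [eventually_all_finite (Set.finite_Iic n)]
    intro k _
    rw [eventually_all_finite (Set.finite_Iic B)]
    intro x _
    exact ev_w hc k x
  filter_upwards [h1] with s hs j hj
  exact good_congr (B := B) (fun k hk x hx => hs k (le_trans hk hj) x hx) hB1 hB2

/-- The hypothesis conjectured on `σ`. -/
def Hyp (c : Code) (σ : List (Option (ℕ × Bool))) : Set ℕ :=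
  {x | ∃ s j, j ≤ σ.length ∧ Good (w c s) σ j ∧ (∀ k < j, ¬ Good (w c s) σ k) ∧ w c s j x}

lemma ev_hyp {c : Code} {φ : ℕ → ℕ →. ℕ} (hc : ∀ j x, c.eval (Nat.pair j x) = φ j x)
    (L : Set ℕ) (i : ℕ) (hiL : W φ i = L) (σ : List (Option (ℕ × Bool)))
    (hlen : i ≤ σ.length)
    (h1 : Good (fun j x => x ∈ W φ j) σ i)
    (h2 : ∀ j < i, ¬ Good (fun j x => x ∈ W φ j) σ j) :
    (symmDiff (Hyp c σ) L).Finite := by
  have hev := ev_good_congr hc σ i
  rw [eventually_atTop] at hev
  obtain ⟨s0, hs0⟩ := hev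
  have hi_good : ∀ s ≥ s0, Good (w c s) σ i := fun s hs => (hs0 s hs i le_rfl).2 h1
  have hi_min : ∀ s ≥ s0, ∀ k < i, ¬ Good (w c s) σ k :=
    fun s hs k hk hG => h2 k hk ((hs0 s hs k hk.le).1 hG)
  refine (Set.finite_lt_nat s0).subset ?_
  intro x hx
  rw [Set.mem_symmDiff] at hx
  rcases hx with ⟨⟨s, j, _, hG, hmin, hw⟩, hxL⟩ | ⟨hxL, hxH⟩
  · by_contra hlt
    simp only [Set.mem_ofPred_eq, not_lt] at hlt
    have hs : s0 ≤ s := le_trans hlt (w_bound hw).le
    have hji : j = i := by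
      rcases lt_trichotomy j i with h | h | h
      · exact absurd hG (hi_min s hs j h)
      · exact h
      · exact absurd (hi_good s hs) (hmin i h)
    subst hji
    exact hxL (hiL ▸ (w_iff hc j x).2 ⟨s, hw⟩)
  · exfalso
    apply hxH
    rw [← hiL] at hxL
    obtain ⟨s, hs⟩ := (w_iff hc i x).1 hxL
    exact ⟨max s s0, i, hlen, hi_good _ (le_max_right _ _), hi_min _ (le_max_right _ _),
      w_mono (le_max_left _ _) hs⟩

/-! ### Computability of the learner -/

section Comp

variable {α β : Type*} [Primcodable α] [Primcodable β]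

lemma pp_forall_mem {f : α → List β} {R : β → α → Prop} (hf : Primrec f)
    (hR : PrimrecPred fun p : β × α => R p.1 p.2) : PrimrecPred fun a => ∀ b ∈ f a, R b a :=
  (PrimrecRel.forall_mem_list (R := R) hR).comp hf Primrec.id

lemma pp_forall_lt {f : α → ℕ} {R : ℕ → α → Prop} (hf : Primrec f)
    (hR : PrimrecPred fun p : ℕ × α => R p.1 p.2) : PrimrecPred fun a => ∀ b < f a, R b a :=
  (pp_forall_mem (Primrec.list_range.comp hf) hR).of_eq (by simp)

lemma pp_imp {p q : α → Prop} (hp : PrimrecPred p) (hq : PrimrecPred q) :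
    PrimrecPred fun a => (p a → q a) :=
  (hp.not.or hq).of_eq (fun a => by tauto)

lemma pp_w (c : Code) {f g h : α → ℕ} (hf : Primrec f) (hg : Primrec g) (hh : Primrec h) :
    PrimrecPred fun a => w c (f a) (g a) (h a) := by
  have h1 : Primrec fun a => evaln (f a) c (Nat.pair (g a) (h a)) :=
    Nat.Partrec.Code.primrec_evaln.comp
      ((hf.pair (Primrec.const c)).pair (Primrec₂.natPair.comp hg hh))
  have h2 : Primrec fun a => (evaln (f a) c (Nat.pair (g a) (h a))).isSome :=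
    Primrec.option_isSome.comp h1
  exact (Primrec.eq.comp h2 (Primrec.const true))

lemma pp_mem {f : α → List β} {g : α → β} (hf : Primrec f) (hg : Primrec g) :
    PrimrecPred fun a => g a ∈ f a := by
  have h1 : PrimrecPred fun a => ∃ b ∈ f a, b = g a :=
    (PrimrecRel.exists_mem_list (R := fun b a : β => b = a) Primrec.eq).comp hf hg
  exact h1.of_eq (by simp)

end Comp

lemma pp_good (c : Code) : PrimrecPred fun q : (List (Option (ℕ × Bool)) × ℕ) × ℕ =>
    Good (w c q.1.2) q.1.1 q.2 := by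
  unfold Good
  refine PrimrecPred.and ?_ ?_
  · refine pp_forall_mem (f := fun q : (List (Option (ℕ × Bool)) × ℕ) × ℕ => q.1.1)
      (R := fun o q => ∀ x b, o = some (x, b) → (w c q.1.2 q.2 x ↔ b = true))
      (Primrec.fst.comp Primrec.fst) ?_
    have h1 : PrimrecPred fun p : Option (ℕ × Bool) × (List (Option (ℕ × Bool)) × ℕ) × ℕ =>
        p.1.isSome = true := Primrec.eq.comp (Primrec.option_isSome.comp Primrec.fst)
          (Primrec.const true)
    have hget : Primrec fun p : Option (ℕ × Bool) × (List (Option (ℕ × Bool)) × ℕ) × ℕ =>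
        p.1.getD (0, false) := Primrec.option_getD_default.comp Primrec.fst
    have h2 : PrimrecPred fun p : Option (ℕ × Bool) × (List (Option (ℕ × Bool)) × ℕ) × ℕ =>
        w c p.2.1.2 p.2.2 (p.1.getD (0, false)).1 :=
      pp_w c (Primrec.snd.comp (Primrec.fst.comp Primrec.snd)) (Primrec.snd.comp Primrec.snd)
        (Primrec.fst.comp hget)
    have h3 : PrimrecPred fun p : Option (ℕ × Bool) × (List (Option (ℕ × Bool)) × ℕ) × ℕ =>
        (p.1.getD (0, false)).2 = true :=
      Primrec.eq.comp (Primrec.snd.comp hget) (Primrec.const true)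
    refine (pp_imp h1 ((pp_imp h2 h3).and (pp_imp h3 h2))).of_eq ?_
    rintro ⟨o, q⟩
    cases o with
    | none => simp
    | some p =>
      obtain ⟨x, b⟩ := p
      simp only [Option.isSome_some, Option.getD_some, forall_const, Option.some.injEq,
        Prod.mk.injEq, and_imp]
      constructor
      · rintro ⟨h1, h2⟩ x' b' rfl rfl
        exact ⟨h1, h2⟩
      · intro h
        have := h x b rfl rfl
        exact ⟨this.1, this.2⟩
  · refine pp_forall_lt (f := fun q : (List (Option (ℕ × Bool)) × ℕ) × ℕ => q.2)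
      (R := fun k q => ∀ y < q.1.1.length, w c q.1.2 q.2 y → ¬ w c q.1.2 k y →
        (∀ z < y, w c q.1.2 q.2 z → w c q.1.2 k z) → some (y, true) ∈ q.1.1)
      Primrec.snd ?_
    refine pp_forall_lt
      (f := fun p : ℕ × (List (Option (ℕ × Bool)) × ℕ) × ℕ => p.2.1.1.length)
      (R := fun y p => w c p.2.1.2 p.2.2 y → ¬ w c p.2.1.2 p.1 y →
        (∀ z < y, w c p.2.1.2 p.2.2 z → w c p.2.1.2 p.1 z) → some (y, true) ∈ p.2.1.1)
      (Primrec.list_length.comp (Primrec.fst.comp (Primrec.fst.comp Primrec.snd))) ?_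
    have hs : Primrec fun r : ℕ × ℕ × (List (Option (ℕ × Bool)) × ℕ) × ℕ => r.2.2.1.2 :=
      Primrec.snd.comp (Primrec.fst.comp (Primrec.snd.comp Primrec.snd))
    have hσ : Primrec fun r : ℕ × ℕ × (List (Option (ℕ × Bool)) × ℕ) × ℕ => r.2.2.1.1 :=
      Primrec.fst.comp (Primrec.fst.comp (Primrec.snd.comp Primrec.snd))
    have hj : Primrec fun r : ℕ × ℕ × (List (Option (ℕ × Bool)) × ℕ) × ℕ => r.2.2.2 :=
      Primrec.snd.comp (Primrec.snd.comp Primrec.snd)
    have hk : Primrec fun r : ℕ × ℕ × (List (Option (ℕ × Bool)) × ℕ) × ℕ => r.2.1 :=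
      Primrec.fst.comp Primrec.snd
    have hy : Primrec fun r : ℕ × ℕ × (List (Option (ℕ × Bool)) × ℕ) × ℕ => r.1 :=
      Primrec.fst
    refine pp_imp (pp_w c hs hj hy) (pp_imp (pp_w c hs hk hy).not (pp_imp ?_ ?_))
    · refine pp_forall_lt
        (f := fun r : ℕ × ℕ × (List (Option (ℕ × Bool)) × ℕ) × ℕ => r.1)
        (R := fun z r => w c r.2.2.1.2 r.2.2.2 z → w c r.2.2.1.2 r.2.1 z) hy ?_
      exact pp_imp (pp_w c (hs.comp Primrec.snd) (hj.comp Primrec.snd) Primrec.fst)
        (pp_w c (hs.comp Primrec.snd) (hk.comp Primrec.snd) Primrec.fst)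
    · exact pp_mem hσ (Primrec.option_some.comp (hy.pair (Primrec.const true)))

/-- The test whose success at some `m` puts `x` into the conjectured set. -/
def Test (c : Code) (σ : List (Option (ℕ × Bool))) (x m : ℕ) : Prop :=
  m.unpair.2 ≤ σ.length ∧ Good (w c m.unpair.1) σ m.unpair.2 ∧
    (∀ k < m.unpair.2, ¬ Good (w c m.unpair.1) σ k) ∧ w c m.unpair.1 m.unpair.2 x

lemma pp_test (c : Code) : PrimrecPred fun q : (List (Option (ℕ × Bool)) × ℕ) × ℕ =>
    Test c q.1.1 q.1.2 q.2 := by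
  unfold Test
  have hσ : Primrec fun q : (List (Option (ℕ × Bool)) × ℕ) × ℕ => q.1.1 :=
    Primrec.fst.comp Primrec.fst
  have hx : Primrec fun q : (List (Option (ℕ × Bool)) × ℕ) × ℕ => q.1.2 :=
    Primrec.snd.comp Primrec.fst
  have h1 : Primrec fun q : (List (Option (ℕ × Bool)) × ℕ) × ℕ => q.2.unpair.1 :=
    Primrec.fst.comp (Primrec.unpair.comp Primrec.snd)
  have h2 : Primrec fun q : (List (Option (ℕ × Bool)) × ℕ) × ℕ => q.2.unpair.2 :=
    Primrec.snd.comp (Primrec.unpair.comp Primrec.snd)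
  refine (Primrec.nat_le.comp h2 (Primrec.list_length.comp hσ)).and
    (((pp_good c).comp ((hσ.pair h1).pair h2)).and (PrimrecPred.and ?_ (pp_w c h1 h2 hx)))
  refine pp_forall_lt
    (f := fun q : (List (Option (ℕ × Bool)) × ℕ) × ℕ => q.2.unpair.2)
    (R := fun k q => ¬ Good (w c q.2.unpair.1) q.1.1 k) h2 ?_
  exact ((pp_good c).comp (((hσ.comp Primrec.snd).pair (h1.comp Primrec.snd)).pair
    Primrec.fst)).not

lemma mem_hyp_iff (c : Code) (σ : List (Option (ℕ × Bool))) (x : ℕ) :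
    x ∈ Hyp c σ ↔ ∃ m, Test c σ x m := by
  constructor
  · rintro ⟨s, j, h⟩
    exact ⟨Nat.pair s j, by simpa [Test] using h⟩
  · rintro ⟨m, h⟩
    exact ⟨m.unpair.1, m.unpair.2, h⟩

lemma exists_learner {φ : ℕ → ℕ →. ℕ} (hφ : Acceptable φ) (c : Code) :
    ∃ M : List (Option (ℕ × Bool)) → ℕ, Computable M ∧ ∀ σ, W φ (M σ) = Hyp c σ := by
  classical
  let dec : ℕ → List (Option (ℕ × Bool)) :=
    fun e => (Encodable.decode (α := List (Option (ℕ × Bool))) e).getD []
  have hdec : Primrec dec := Primrec.option_getD.comp Primrec.decode (Primrec.const [])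
  let ψ : ℕ → ℕ →. ℕ := fun e x => Nat.rfind fun m => Part.some (decide (Test c (dec e) x m))
  have hψ : Partrec₂ ψ := by
    have h1 : Primrec fun q : (ℕ × ℕ) × ℕ => decide (Test c (dec q.1.1) q.1.2 q.2) :=
      ((pp_test c).comp (((hdec.comp (Primrec.fst.comp Primrec.fst)).pair
        (Primrec.snd.comp Primrec.fst)).pair Primrec.snd)).decide
    exact Partrec.rfind (p := fun (p : ℕ × ℕ) m =>
      Part.some (decide (Test c (dec p.1) p.2 m))) h1.to_comp.partrec
  obtain ⟨f, hf, hfψ⟩ := hφ.translate ψ hψ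
  refine ⟨fun σ => f (Encodable.encode σ), hf.comp Computable.encode, ?_⟩
  intro σ
  ext x
  rw [mem_hyp_iff]
  have hd : dec (Encodable.encode σ) = σ := by simp [dec]
  have hW : x ∈ W φ (f (Encodable.encode σ)) ↔
      (Nat.rfind (show ℕ →. Bool from fun m => Part.some (decide (Test c σ x m)))).Dom := by
    simp only [W, Set.mem_ofPred_eq, hfψ, ψ, hd]
  rw [hW, Nat.rfind_dom']
  constructor
  · rintro ⟨m, hm, _⟩
    exact ⟨m, by simpa using hm⟩
  · rintro ⟨m, hm⟩
    exact ⟨m, by simpa using hm, fun _ => trivial⟩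

lemma exists_index {φ : ℕ → ℕ →. ℕ} (hφ : Acceptable φ) {L : Set ℕ} (hL : L ∈ AllRE) :
    ∃ e, W φ e = L := by
  have hL' : REPred (fun x => x ∈ L) := hL
  have h1 : Partrec fun x : ℕ => (Part.assert (x ∈ L) fun _ => Part.some ()) := hL'
  have h2 : Partrec fun x : ℕ =>
      (Part.assert (x ∈ L) fun _ => Part.some ()).map (fun _ => 0) :=
    h1.map (Computable.const 0).to₂
  obtain ⟨f, _, hf⟩ := hφ.translate
    (fun _ x => (Part.assert (x ∈ L) fun _ => Part.some ()).map (fun _ => 0))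
    (h2.comp Computable.snd)
  refine ⟨f 0, ?_⟩
  ext x
  simp only [W, Set.mem_ofPred_eq, hf]
  exact ⟨fun h => h.1, fun h => ⟨h, trivial⟩⟩

lemma exists_code_of {φ : ℕ → ℕ →. ℕ} (hφ : Partrec₂ φ) :
    ∃ c : Code, ∀ j x, c.eval (Nat.pair j x) = φ j x := by
  have h1 : Nat.Partrec (Nat.unpaired φ) := Partrec₂.unpaired'.2 hφ
  obtain ⟨c, hc⟩ := Nat.Partrec.Code.exists_code.1 h1
  refine ⟨c, fun j x => ?_⟩
  rw [hc]
  simp [Nat.unpaired]

/-- Sanity check: acceptable numberings exist. -/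
lemma acceptable_exists : Acceptable fun e x => (Denumerable.ofNat Code e).eval x := by
  constructor
  · exact Nat.Partrec.Code.eval_part.comp
      ((Computable.ofNat Code).comp Computable.fst) Computable.snd
  · intro ψ hψ
    obtain ⟨c, hc⟩ := exists_code_of hψ
    obtain ⟨g, hg, hgs⟩ := Nat.Partrec.Code.smn
    refine ⟨fun e => Encodable.encode (g c e), ?_, ?_⟩
    · exact Computable.encode.comp (hg.comp (Computable.const c) Computable.id)
    · intro e
      funext x
      simp [hgs, hc]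

theorem result : ∀ φ : ℕ → ℕ →. ℕ, Acceptable φ → ∀ i : ℕ, 1 ≤ i →
    AllRE ∈ NegOTxtBc φ i ⊤ := by
  intro φ hφ i hi1
  obtain ⟨c, hc⟩ := exists_code_of hφ.partrec
  obtain ⟨M, hM, hMW⟩ := exists_learner hφ c
  refine ⟨subset_rfl, M, hM, ?_⟩
  intro L hL
  classical
  have hex := exists_index hφ hL
  have hiL := Nat.find_spec hex
  have hmin : ∀ j < Nat.find hex, W φ j ≠ L := fun j hj => Nat.find_min hex hj
  obtain ⟨S, hSL, hScard, hS⟩ := exists_negative (W φ) L (Nat.find hex) hmin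
  refine ⟨S, hSL, ⟨hScard.1, hScard.2.trans (by exact_mod_cast hi1)⟩, ?_⟩
  intro I _ hpos hSI hneg
  filter_upwards [ev_good (W φ) L (Nat.find hex) hiL S hS I hpos hSI hneg,
    eventually_ge_atTop (Nat.find hex)] with n hn hlen
  rw [hMW]
  refine ⟨?_, le_top⟩
  exact ev_hyp hc L (Nat.find hex) hiL (initSeg I n) (by rw [length_initSeg]; exact hlen)
    hn.1 hn.2

end Pool.Agent.Results.MP_1b3940_lc.NegOneAll
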